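import Pool.Agent.TH876.FH.Ana
import Pool.Agent.Y729.FW.Surj

/-! **The Faltings height and the height of the coefficients** (helper679). -/

set_option autoImplicit false

namespace Pool.Agent.Y679.Fh

open Pool.Agent.TH876.FH (jInv arch ana)

/-- the height of the coefficients -/
noncomputable def cH (W : WeierstrassCurve ℤ) : ℝ := max (|(W.c₄ : ℝ)| ^ 3) ((W.c₆ : ℝ) ^ 2)

/-- the Faltings height of a global minimal equation, up to a constant -/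
noncomputable def fh (W : WeierstrassCurve ℤ) (τ : UpperHalfPlane) : ℝ :=
  (Real.log (|W.Δ| : ℤ) + arch τ) / 12

/-- `τ` is a period -/
def IsP (W : WeierstrassCurve ℤ) (τ : UpperHalfPlane) : Prop :=
  jInv τ = (((W.c₄ : ℚ) ^ 3 / W.Δ : ℚ) : ℂ)

theorem ex_P (W : WeierstrassCurve ℤ) : ∃ τ, IsP W τ := Pool.Agent.Y729.FW.j_surj _

theorem c_rel (W : WeierstrassCurve ℤ) :
    1728 * (W.Δ : ℝ) = (W.c₄ : ℝ) ^ 3 - (W.c₆ : ℝ) ^ 2 := by exact_mod_cast W.c_relation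

theorem Δ_abs {W : WeierstrassCurve ℤ} (h : W.Δ ≠ 0) : 1 ≤ |(W.Δ : ℝ)| := by
  have : 1 ≤ |W.Δ| := Int.one_le_abs h
  exact_mod_cast this

/-- the product of the discriminant and of `max (|j|, 1)` -/
theorem jm {W : WeierstrassCurve ℤ} (h : W.Δ ≠ 0) {τ : UpperHalfPlane} (hτ : IsP W τ) :
    |(W.Δ : ℝ)| * max ‖jInv τ‖ 1 = max (|(W.c₄ : ℝ)| ^ 3) |(W.Δ : ℝ)| := by
  have h1 := Δ_abs h
  have h0 : 0 < |(W.Δ : ℝ)| := by linarith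
  have h2 : ‖jInv τ‖ = |(W.c₄ : ℝ)| ^ 3 / |(W.Δ : ℝ)| := by
    have h3 : jInv τ = (((W.c₄ : ℚ) ^ 3 / W.Δ : ℚ) : ℂ) := hτ
    have h4 : (((W.c₄ : ℚ) ^ 3 / W.Δ : ℚ) : ℂ) = (((W.c₄ : ℝ) ^ 3 / (W.Δ : ℝ) : ℝ) : ℂ) := by
      push_cast
      rfl
    rw [h3, h4, Complex.norm_real, Real.norm_eq_abs, abs_div, abs_pow]
  rw [h2, mul_max_of_nonneg _ _ h0.le, mul_div_cancel₀ _ h0.ne', mul_one]

theorem log_jm {W : WeierstrassCurve ℤ} (h : W.Δ ≠ 0) {τ : UpperHalfPlane} (hτ : IsP W τ) :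
    Real.log |(W.Δ : ℝ)| + Real.log (max ‖jInv τ‖ 1) =
      Real.log (max (|(W.c₄ : ℝ)| ^ 3) |(W.Δ : ℝ)|) := by
  have h1 := Δ_abs h
  have h0 : 0 < |(W.Δ : ℝ)| := by linarith
  have h2 : 0 < max ‖jInv τ‖ 1 := lt_max_of_lt_right one_pos
  rw [← jm h hτ, Real.log_mul h0.ne' h2.ne']

theorem m_le {W : WeierstrassCurve ℤ} : max (|(W.c₄ : ℝ)| ^ 3) |(W.Δ : ℝ)| ≤ cH W := by
  unfold cH
  refine max_le (le_max_left _ _) ?_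
  have h1 := c_rel W
  have h2 : 1728 * |(W.Δ : ℝ)| ≤ |(W.c₄ : ℝ)| ^ 3 + (W.c₆ : ℝ) ^ 2 := by
    have h3 : |1728 * (W.Δ : ℝ)| = 1728 * |(W.Δ : ℝ)| := by
      rw [abs_mul]
      norm_num
    rw [← h3, h1]
    refine (abs_sub _ _).trans ?_
    rw [abs_pow, abs_of_nonneg (sq_nonneg (W.c₆ : ℝ))]
  have h3 := le_max_left (|(W.c₄ : ℝ)| ^ 3) ((W.c₆ : ℝ) ^ 2)
  have h4 := le_max_right (|(W.c₄ : ℝ)| ^ 3) ((W.c₆ : ℝ) ^ 2)
  have h5 : 0 ≤ max (|(W.c₄ : ℝ)| ^ 3) ((W.c₆ : ℝ) ^ 2) := le_trans (by positivity) h3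
  linarith

theorem le_m {W : WeierstrassCurve ℤ} :
    cH W ≤ 1729 * max (|(W.c₄ : ℝ)| ^ 3) |(W.Δ : ℝ)| := by
  unfold cH
  have h1 := c_rel W
  have h3 := le_max_left (|(W.c₄ : ℝ)| ^ 3) |(W.Δ : ℝ)|
  have h4 := le_max_right (|(W.c₄ : ℝ)| ^ 3) |(W.Δ : ℝ)|
  have h5 : 0 ≤ max (|(W.c₄ : ℝ)| ^ 3) |(W.Δ : ℝ)| := le_trans (by positivity) h3
  refine max_le (by linarith) ?_
  have h6 : (W.c₄ : ℝ) ^ 3 ≤ |(W.c₄ : ℝ)| ^ 3 := by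
    rw [← abs_pow]
    exact le_abs_self _
  have h7 := neg_abs_le (W.Δ : ℝ)
  linarith

theorem m_pos {W : WeierstrassCurve ℤ} (h : W.Δ ≠ 0) :
    1 ≤ max (|(W.c₄ : ℝ)| ^ 3) |(W.Δ : ℝ)| := (Δ_abs h).trans (le_max_right _ _)

theorem fh_le : ∃ C : ℝ, ∀ W : WeierstrassCurve ℤ, W.Δ ≠ 0 → ∀ τ, IsP W τ →
    12 * fh W τ ≤ Real.log (cH W) + C := by
  obtain ⟨c, hc⟩ := ana.2
  refine ⟨c, fun W h τ hτ => ?_⟩
  have h1 := log_jm h hτ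
  have h2 := hc τ
  have h3 := m_pos h
  have h4 := Real.log_le_log (by linarith) (m_le (W := W))
  unfold fh
  push_cast
  linarith

theorem fh_ge {δ : ℝ} (hδ : 0 < δ) : ∃ C : ℝ, ∀ W : WeierstrassCurve ℤ, W.Δ ≠ 0 → ∀ τ, IsP W τ →
    Real.log (cH W) / (1 + δ) - C ≤ 12 * fh W τ := by
  obtain ⟨c, hc⟩ := ana.1 δ hδ
  refine ⟨(c + Real.log 1729) / (1 + δ), fun W h τ hτ => ?_⟩
  have h1 := log_jm h hτ
  have h2 := hc τ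
  have h3 := m_pos h
  have hd : 0 < 1 + δ := by linarith
  have hcH : 0 < cH W := lt_of_lt_of_le (by linarith) (m_le (W := W))
  have h4 := Real.log_le_log hcH (le_m (W := W))
  rw [Real.log_mul (by norm_num) (by positivity)] at h4
  have h5 : 0 ≤ Real.log |(W.Δ : ℝ)| := Real.log_nonneg (Δ_abs h)
  rw [← sub_div, div_le_iff₀ hd]
  unfold fh
  push_cast
  nlinarith

end Pool.Agent.Y679.Fh
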