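import Pool.Agent.Y679.Fh.Ht
import Pool.Agent.Y729.FW.Surj

/-! **Bounds for the Faltings height, counting** (helper679). -/

set_option autoImplicit false

namespace Pool.Agent.Y679.Fh

open Filter Finset Topology Pool.Agent.H925R.Szpiro Pool.Agent.Y679.Par Pool.Agent.Y679.Cur
  Pool.Agent.Y679.Jl
open Pool.Agent.TH876.FH (jInv arch ana)

/-- the Faltings height up to a constant -/
noncomputable def height (q : ℤ × ℤ) (τ : UpperHalfPlane) : ℝ :=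
  (Real.log (minDisc (Eq q) : ℝ) + arch τ) / 12

/-- `τ` is a period of the curve -/
def IsPer (q : ℤ × ℤ) (τ : UpperHalfPlane) : Prop :=
  jInv τ = (((Eq q).c₄ ^ 3 / (Eq q).Δ : ℚ) : ℂ)

theorem ex_per (q : ℤ × ℤ) : ∃ τ, IsPer q τ := Pool.Agent.Y729.FW.j_surj _

theorem D_pos {q : ℤ × ℤ} (hmin : IsMin q.1 q.2) (hf : FullS q.1 q.2) : 0 < D q.1 q.2 := by
  obtain ⟨w, hw, he⟩ := quot hmin hf
  rw [he]
  have := condS_pos q.1 q.2
  positivity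

/-- the lower bound -/
theorem ht_ge : ∃ C : ℝ, 0 ≤ C ∧ ∀ q : ℤ × ℤ, IsMin q.1 q.2 → FullS q.1 q.2 → ∀ τ : UpperHalfPlane,
    Real.log ((D q.1 q.2 : ℤ) : ℝ) - C ≤ 12 * height q τ := by
  obtain ⟨c, hc⟩ := ana.1 1 one_pos
  refine ⟨Real.log 136048896 + |c|, by positivity, fun q hmin hf τ => ?_⟩
  have hD := D_pos hmin hf
  have hDr : (0 : ℝ) < ((D q.1 q.2 : ℤ) : ℝ) := by exact_mod_cast hD
  have h1 := minDisc_ge hmin
  have h2 : ((D q.1 q.2 : ℤ) : ℝ) ≤ 136048896 * (minDisc (Eq q) : ℝ) := by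
    have h3 : ((D q.1 q.2).natAbs : ℤ) = D q.1 q.2 := Int.natAbs_of_nonneg hD.le
    have h4 : ((D q.1 q.2 : ℤ) : ℝ) = (((D q.1 q.2).natAbs : ℕ) : ℝ) := by
      rw [← h3]
      simp
    rw [h4]
    exact_mod_cast h1
  have hm : (0 : ℝ) < (minDisc (Eq q) : ℝ) := by
    by_contra h
    have : (minDisc (Eq q) : ℝ) = 0 := le_antisymm (not_lt.1 h) (Nat.cast_nonneg _)
    rw [this] at h2
    linarith
  have h3 := Real.log_le_log hDr h2
  rw [Real.log_mul (by norm_num) hm.ne'] at h3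
  have h4 := hc τ
  have h5 : 0 ≤ Real.log (max ‖jInv τ‖ 1) := Real.log_nonneg (le_max_right _ _)
  have h6 : -|c| ≤ arch τ := by
    have := le_abs_self c
    have := abs_nonneg c
    by_contra hcon
    nlinarith
  unfold height
  linarith

theorem Hh_eq {q : ℤ × ℤ} (hD : 0 < D q.1 q.2) : Hh q = 4 * q.1 ^ 3 ∧ 0 < q.1 := by
  have h1 : 0 < 4 * q.1 ^ 3 - 27 * q.2 ^ 2 := hD
  have h2 : 0 < q.1 ^ 3 := by nlinarith [sq_nonneg q.2]
  have h3 : 0 < q.1 := by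
    by_contra h
    have h4 : q.1 ≤ 0 := not_lt.1 h
    have : q.1 ^ 3 ≤ 0 := by
      have := mul_nonneg (sq_nonneg q.1) (neg_nonneg.2 h4)
      nlinarith
    linarith
  refine ⟨?_, h3⟩
  unfold Hh
  rw [abs_of_pos h3]
  exact max_eq_left (by linarith)

theorem D_le {q : ℤ × ℤ} (hD : 0 < D q.1 q.2) : D q.1 q.2 ≤ Hh q := by
  rw [(Hh_eq hD).1]
  have h1 : D q.1 q.2 = 4 * q.1 ^ 3 - 27 * q.2 ^ 2 := rfl
  have h2 := sq_nonneg q.2
  linarith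

/-- the upper bound -/
theorem ht_le : ∃ C : ℝ, 0 ≤ C ∧ ∀ q : ℤ × ℤ, IsMin q.1 q.2 → FullS q.1 q.2 →
    ∀ τ : UpperHalfPlane, IsPer q τ → 12 * height q τ ≤ Real.log ((Hh q : ℤ) : ℝ) + C := by
  obtain ⟨c, hc⟩ := ana.2
  refine ⟨Real.log 16 + Real.log 1728 + |c|, by positivity, fun q hmin hf τ hτ => ?_⟩
  have hD := D_pos hmin hf
  obtain ⟨hH, ha⟩ := Hh_eq hD
  have hDr : (0 : ℝ) < ((D q.1 q.2 : ℤ) : ℝ) := by exact_mod_cast hD
  have hHr : (0 : ℝ) < ((Hh q : ℤ) : ℝ) := by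
    have : 0 < Hh q := by rw [hH]; positivity
    exact_mod_cast this
  have hDH : ((D q.1 q.2 : ℤ) : ℝ) ≤ ((Hh q : ℤ) : ℝ) := by exact_mod_cast D_le hD
  -- the minimal discriminant
  have h1 : (minDisc (Eq q) : ℝ) ≤ 16 * ((D q.1 q.2 : ℤ) : ℝ) := by
    have h3 : ((D q.1 q.2).natAbs : ℤ) = D q.1 q.2 := Int.natAbs_of_nonneg hD.le
    have h4 : ((D q.1 q.2 : ℤ) : ℝ) = (((D q.1 q.2).natAbs : ℕ) : ℝ) := by
      rw [← h3]
      simp
    rw [h4]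
    exact_mod_cast minDisc_le q
  have hm : (0 : ℝ) < (minDisc (Eq q) : ℝ) := by
    have h2 := minDisc_ge hmin
    have h3 : 0 < (D q.1 q.2).natAbs := Int.natAbs_pos.2 hD.ne'
    have : 0 < minDisc (Eq q) := by
      rcases Nat.eq_zero_or_pos (minDisc (Eq q)) with h | h
      · rw [h] at h2
        omega
      · exact h
    exact_mod_cast this
  have h2 := Real.log_le_log hm h1
  rw [Real.log_mul (by norm_num) hDr.ne'] at h2
  -- the invariant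
  have h3 : ‖jInv τ‖ = 1728 * (((Hh q : ℤ) : ℝ) / ((D q.1 q.2 : ℤ) : ℝ)) := by
    have h4 : jInv τ = (((Eq q).c₄ ^ 3 / (Eq q).Δ : ℚ) : ℂ) := hτ
    rw [h4, c4_Eq, disc_Eq, hH]
    have h5 : (((48 * (q.1 : ℚ)) ^ 3 / (16 * ((D q.1 q.2 : ℤ) : ℚ)) : ℚ) : ℂ) =
        ((1728 * (((4 * q.1 ^ 3 : ℤ) : ℝ) / ((D q.1 q.2 : ℤ) : ℝ)) : ℝ) : ℂ) := by
      have hDc : ((D q.1 q.2 : ℤ) : ℂ) ≠ 0 := by exact_mod_cast hD.ne'
      push_cast
      field_simp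
      ring
    rw [h5, Complex.norm_real, Real.norm_eq_abs, abs_of_pos]
    have h6 : (0 : ℝ) < ((4 * q.1 ^ 3 : ℤ) : ℝ) := by
      have : 0 < 4 * q.1 ^ 3 := by positivity
      exact_mod_cast this
    positivity
  have h4 : 1 ≤ ((Hh q : ℤ) : ℝ) / ((D q.1 q.2 : ℤ) : ℝ) := by
    rw [le_div_iff₀ hDr]
    linarith
  have h5 : max ‖jInv τ‖ 1 = 1728 * (((Hh q : ℤ) : ℝ) / ((D q.1 q.2 : ℤ) : ℝ)) := by
    rw [h3]
    exact max_eq_left (by linarith)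
  have h6 := hc τ
  rw [h5, Real.log_mul (by norm_num) (by positivity), Real.log_div hHr.ne' hDr.ne'] at h6
  have := le_abs_self c
  unfold height
  linarith

/-- the number of the models -/
theorem Md_up : ∃ C : ℝ, 0 < C ∧ ∀ lam : ℤ × ℤ → ℕ,
    (∀ q : ℤ × ℤ, IsMin q.1 q.2 → FullS q.1 q.2 → 1 ≤ lam q) → ∀ N : ℝ, 1 ≤ N →
    ((Md lam N).ncard : ℝ) ≤ C * N ^ ((2 : ℝ) / 3) := by
  have hfac : Fac (fun _ => 1) :=
    ⟨fun _ _ _ => ⟨le_rfl, by norm_num⟩, fun m => ⟨0, fun _ _ _ _ _ _ _ _ _ _ _ _ => rfl⟩⟩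
  obtain ⟨K, κ, hK, -, -, hlim, -⟩ := dist hfac
  obtain ⟨N0, hN0⟩ := eventually_atTop.1 (hlim.eventually_lt_const (lt_add_one K))
  obtain ⟨N1, hN1⟩ : ∃ N1 : ℝ, N1 = max N0 1 := ⟨_, rfl⟩
  have hN11 : 1 ≤ N1 := by rw [hN1]; exact le_max_right _ _
  have hbig : ∀ N : ℝ, N1 ≤ N → ((Md (fun _ => 1) N).ncard : ℝ) ≤
      (K + 1) * N ^ ((2 : ℝ) / 3) := by
    intro N hN
    have h1 := hN0 N ((le_max_left _ _).trans (by rw [← hN1]; exact hN))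
    have h2 : (0 : ℝ) < N ^ ((2 : ℝ) / 3) := Real.rpow_pos_of_pos (by linarith) _
    rw [div_lt_iff₀ h2] at h1
    exact h1.le
  have hone : ∀ q : ℤ × ℤ, IsMin q.1 q.2 → FullS q.1 q.2 → 1 ≤ (fun _ : ℤ × ℤ => 1) q :=
    fun _ _ _ => le_rfl
  refine ⟨(K + 1) * N1 ^ ((2 : ℝ) / 3), by positivity, fun lam hlam N hN => ?_⟩
  have hsub : ∀ {N M : ℝ}, N ≤ M → Md lam N ⊆ Md (fun _ => 1) M := by
    rintro N M hNM q ⟨a1, a2, a3⟩
    refine ⟨a1, a2, le_trans ?_ (a3.trans hNM)⟩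
    rw [one_mul]
    exact_mod_cast Nat.le_mul_of_pos_left _ (hlam q a1 a2)
  have hN23 : (1 : ℝ) ≤ N ^ ((2 : ℝ) / 3) := Real.one_le_rpow hN (by norm_num)
  have hN123 : (1 : ℝ) ≤ N1 ^ ((2 : ℝ) / 3) := Real.one_le_rpow hN11 (by norm_num)
  rcases le_total N1 N with h | h
  · have h1 : ((Md lam N).ncard : ℝ) ≤ ((Md (fun _ => 1) N).ncard : ℝ) := by
      exact_mod_cast Set.ncard_le_ncard (hsub le_rfl) (Md_fin hone hN)
    refine h1.trans ((hbig N h).trans ?_)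
    refine mul_le_mul_of_nonneg_right ?_ (by positivity)
    nlinarith
  · have h1 : ((Md lam N).ncard : ℝ) ≤ ((Md (fun _ => 1) N1).ncard : ℝ) := by
      exact_mod_cast Set.ncard_le_ncard (hsub h) (Md_fin hone hN11)
    refine h1.trans ((hbig N1 le_rfl).trans ?_)
    have h2 : 0 ≤ (K + 1) * N1 ^ ((2 : ℝ) / 3) := by positivity
    nlinarith

/-- the models with a large Faltings height -/
def Hg (lam : ℤ × ℤ → ℕ) (c N : ℝ) : Set (ℤ × ℤ) :=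
  {q | q ∈ Md lam N ∧ ∃ τ, IsPer q τ ∧ Real.log (condS q.1 q.2 : ℝ) / 6 + c ≤ height q τ}

theorem Hg_le {t : ℝ} (ht0 : 0 < t) (ht : t < 2) : ∃ η C : ℝ, 0 < η ∧ 0 < C ∧
    ∀ lam : ℤ × ℤ → ℕ, (∀ q : ℤ × ℤ, IsMin q.1 q.2 → FullS q.1 q.2 → 1 ≤ lam q) →
    ∀ N c : ℝ, 1 ≤ N → 0 ≤ c → ((Hg lam c N).ncard : ℝ) ≤
      C * (Real.exp (-(t * c)) * N ^ ((2 : ℝ) / 3) + N ^ (2 / 3 - η)) := by
  obtain ⟨η, C1, hη, hC1, h1⟩ := H_le (σ := t / 12) (by positivity) (by linarith)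
  obtain ⟨C0, hC0, hle⟩ := ht_le
  obtain ⟨C2, hC2, hup⟩ := Md_up
  obtain ⟨R, hR⟩ : ∃ R : ℝ, R = Real.exp (t / 12 * C0) * 2 ^ (t / 12) := ⟨_, rfl⟩
  have hR0 : 0 < R := by rw [hR]; positivity
  refine ⟨η, max C1 C2 * max R 1, hη, by positivity, fun lam hlam N c hN hc => ?_⟩
  have hfin := Md_fin hlam hN
  have hN0 : 0 < N := by linarith
  obtain ⟨K, hK⟩ : ∃ K : ℝ, K = Real.exp (12 * c - C0) / 2 := ⟨_, rfl⟩
  have hK0 : 0 < K := by rw [hK]; positivity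
  have hKσ : K ^ (-(t / 12)) = R * Real.exp (-(t * c)) := by
    rw [hK, hR, Real.div_rpow (Real.exp_pos _).le (by norm_num), ← Real.exp_mul,
      Real.rpow_neg (by norm_num : (0 : ℝ) ≤ 2), div_inv_eq_mul,
      show (12 * c - C0) * -(t / 12) = t / 12 * C0 + -(t * c) by ring, Real.exp_add]
    ring
  have hx : (0 : ℝ) < N ^ ((2 : ℝ) / 3) := by positivity
  have hy : (0 : ℝ) < N ^ ((2 : ℝ) / 3 - η) := by positivity
  have hE : 0 < Real.exp (-(t * c)) := Real.exp_pos _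
  have hmR : R ≤ max R 1 := le_max_left _ _
  have hm1 : (1 : ℝ) ≤ max R 1 := le_max_right _ _
  rcases le_total 1 K with hK1 | hK1
  · have h2 : Hg lam c N ⊆ {q : ℤ × ℤ | q ∈ Md lam N ∧
        K * (condS q.1 q.2 : ℝ) ^ 2 < ((Hh q : ℤ) : ℝ)} := by
      rintro q ⟨hq, τ, hτ, hq2⟩
      refine ⟨hq, ?_⟩
      have h3 := hle q hq.1 hq.2.1 τ hτ
      have hcs : (0 : ℝ) < (condS q.1 q.2 : ℝ) := by exact_mod_cast condS_pos q.1 q.2
      have hD := D_pos hq.1 hq.2.1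
      have hHp : (0 : ℝ) < ((Hh q : ℤ) : ℝ) := by
        have : 0 < Hh q := lt_of_lt_of_le hD (D_le hD)
        exact_mod_cast this
      have h4 : 2 * Real.log (condS q.1 q.2 : ℝ) + (12 * c - C0) ≤ Real.log ((Hh q : ℤ) : ℝ) := by
        linarith
      have h5 := Real.exp_le_exp.2 h4
      rw [Real.exp_add, Real.exp_log hHp, mul_comm 2, Real.exp_mul, Real.exp_log hcs] at h5
      have h6 : (condS q.1 q.2 : ℝ) ^ (2 : ℝ) = (condS q.1 q.2 : ℝ) ^ 2 := by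
        rw [← Real.rpow_natCast]
        norm_num
      rw [h6] at h5
      refine lt_of_lt_of_le ?_ h5
      rw [hK, mul_comm]
      have h7 : 0 < (condS q.1 q.2 : ℝ) ^ 2 * Real.exp (12 * c - C0) := by positivity
      linarith [h7, mul_div_assoc ((condS q.1 q.2 : ℝ) ^ 2) (Real.exp (12 * c - C0)) 2]
    have h3 : ((Hg lam c N).ncard : ℝ) ≤ _ :=
      Nat.cast_le.2 (Set.ncard_le_ncard h2 (hfin.subset fun q hq => hq.1))
    refine h3.trans ((h1 lam hlam N K hN hK1).trans ?_)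
    rw [hKσ]
    have hmC : C1 ≤ max C1 C2 := le_max_left _ _
    have hmC0 : 0 < max C1 C2 := lt_max_of_lt_left hC1
    calc C1 * (R * Real.exp (-(t * c)) * N ^ ((2 : ℝ) / 3) + N ^ (2 / 3 - η))
        ≤ max C1 C2 * (max R 1 * Real.exp (-(t * c)) * N ^ ((2 : ℝ) / 3) +
            max R 1 * N ^ (2 / 3 - η)) := by
          refine mul_le_mul hmC (add_le_add ?_ ?_) (by positivity) hmC0.le
          · gcongr
          · nlinarith
      _ = _ := by ring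
  · have h2 : ((Hg lam c N).ncard : ℝ) ≤ ((Md lam N).ncard : ℝ) :=
      Nat.cast_le.2 (Set.ncard_le_ncard (fun q hq => hq.1) hfin)
    refine h2.trans ((hup lam hlam N hN).trans ?_)
    have h3 : 1 ≤ K ^ (-(t / 12)) := Real.one_le_rpow_of_pos_of_le_one_of_nonpos hK0 hK1
      (by linarith [div_pos ht0 (by norm_num : (0:ℝ) < 12)])
    rw [hKσ] at h3
    have hmC : C2 ≤ max C1 C2 := le_max_right _ _
    have hmC0 : 0 < max C1 C2 := lt_max_of_lt_left hC1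
    calc C2 * N ^ ((2 : ℝ) / 3) ≤ max C1 C2 * (max R 1 * Real.exp (-(t * c)) * N ^ ((2 : ℝ) / 3)) := by
          refine mul_le_mul hmC ?_ hx.le hmC0.le
          have : 1 ≤ max R 1 * Real.exp (-(t * c)) :=
            h3.trans (mul_le_mul_of_nonneg_right hmR hE.le)
          nlinarith
      _ ≤ max C1 C2 * (max R 1 * Real.exp (-(t * c)) * N ^ ((2 : ℝ) / 3) +
            max R 1 * N ^ (2 / 3 - η)) := by
          refine mul_le_mul_of_nonneg_left ?_ hmC0.le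
          have : 0 ≤ max R 1 * N ^ ((2 : ℝ) / 3 - η) := by positivity
          linarith
      _ = _ := by ring

theorem Hg_ge : ∃ c0 C : ℝ, 0 < c0 ∧ 0 < C ∧ ∀ lam : ℤ × ℤ → ℕ,
    (∀ q : ℤ × ℤ, IsMin q.1 q.2 → FullS q.1 q.2 → 1 ≤ lam q ∧ lam q ≤ 62208) →
    ∀ N c : ℝ, 0 ≤ c → C * Real.exp (12 * c) ≤ N →
    c0 * (Real.exp (-(2 * c)) * N ^ ((2 : ℝ) / 3)) ≤ ((Hg lam c N).ncard : ℝ) := by
  obtain ⟨c1, hc1, h1⟩ := Mk_ge
  obtain ⟨C3, hC3, hge⟩ := ht_ge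
  refine ⟨c1 * Real.exp (-(C3 / 6)), 2000000 * Real.exp C3, by positivity, by positivity,
    fun lam hlam N c hc hN => ?_⟩
  obtain ⟨K, hK⟩ : ∃ K : ℝ, K = Real.exp (12 * c + C3) := ⟨_, rfl⟩
  have hK1 : 1 ≤ K := by rw [hK]; exact Real.one_le_exp (by positivity)
  have hN' : 2000000 * K ≤ N := by
    rw [hK, Real.exp_add]
    linarith
  have hN1 : 1 ≤ N := by linarith
  have h2 := h1 lam hlam N K hK1 hN'
  have h3 : K ^ (-(1 / 6) : ℝ) = Real.exp (-(C3 / 6)) * Real.exp (-(2 * c)) := by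
    rw [hK, ← Real.exp_mul, ← Real.exp_add]
    congr 1
    ring
  rw [h3] at h2
  refine le_trans (le_of_eq (by ring)) (h2.trans ?_)
  refine Nat.cast_le.2 (Set.ncard_le_ncard ?_
    ((Md_fin (fun q a b => (hlam q a b).1) hN1).subset fun q hq => hq.1))
  rintro q ⟨hq, hq2⟩
  obtain ⟨τ, hτ⟩ := ex_per q
  refine ⟨hq, τ, hτ, ?_⟩
  have hD := D_pos hq.1 hq.2.1
  have hDr : (0 : ℝ) < ((D q.1 q.2 : ℤ) : ℝ) := by exact_mod_cast hD
  have hcs : (0 : ℝ) < (condS q.1 q.2 : ℝ) := by exact_mod_cast condS_pos q.1 q.2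
  have h4 := hge q hq.1 hq.2.1 τ
  rw [abs_of_pos hDr] at hq2
  have h5 := Real.log_le_log (by positivity) hq2.le
  rw [Real.log_mul (by positivity) (by positivity), Real.log_pow, hK, Real.log_exp] at h5
  push_cast at h5
  linarith

end Pool.Agent.Y679.Fh
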