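import Pool.Agent.TH876.FH.Ana
import Pool.Agent.Y679.Jl.Tb
import Pool.Agent.Y679.Dtop

/-! **The Faltings height of the minimal models with full 2-torsion** (helper679). -/

set_option autoImplicit false

namespace Pool.Agent.Y679.Fh

open Filter Finset Topology Pool.Agent.H925R.Szpiro Pool.Agent.Y679.Par Pool.Agent.Y679.Cur
  Pool.Agent.Y679.Jl
open Pool.Agent.TH876.FH (jInv arch ana)

/-- the curve `y² = x³ - a x - b` -/
def Eq (q : ℤ × ℤ) : WeierstrassCurve ℚ := ⟨0, 0, 0, -(q.1 : ℚ), -(q.2 : ℚ)⟩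

/-- the absolute value of the minimal discriminant -/
noncomputable def minDisc (W : WeierstrassCurve ℚ) : ℕ :=
  sInf {n : ℕ | ∃ (V : WeierstrassCurve ℤ) (C : WeierstrassCurve.VariableChange ℚ),
    C • W = V.map (Int.castRingHom ℚ) ∧ n = V.Δ.natAbs}

/-- the integral model -/
def Ez (q : ℤ × ℤ) : WeierstrassCurve ℤ := ⟨0, 0, 0, -q.1, -q.2⟩

theorem Ez_map (q : ℤ × ℤ) : (1 : WeierstrassCurve.VariableChange ℚ) • Eq q =
    (Ez q).map (Int.castRingHom ℚ) := by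
  rw [one_smul]
  unfold Eq Ez
  simp [WeierstrassCurve.map]

theorem Ez_disc (q : ℤ × ℤ) : (Ez q).Δ = 16 * D q.1 q.2 := by
  unfold Ez D
  simp only [WeierstrassCurve.Δ, WeierstrassCurve.b₂, WeierstrassCurve.b₄, WeierstrassCurve.b₆,
    WeierstrassCurve.b₈]
  ring

theorem minDisc_le (q : ℤ × ℤ) : minDisc (Eq q) ≤ 16 * (D q.1 q.2).natAbs := by
  refine Nat.sInf_le ⟨Ez q, 1, Ez_map q, ?_⟩
  rw [Ez_disc, Int.natAbs_mul]
  rfl

theorem c4_Eq (q : ℤ × ℤ) : (Eq q).c₄ = 48 * q.1 := by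
  unfold Eq
  simp only [WeierstrassCurve.c₄, WeierstrassCurve.b₂, WeierstrassCurve.b₄]
  ring

theorem c6_Eq (q : ℤ × ℤ) : (Eq q).c₆ = 864 * q.2 := by
  unfold Eq
  simp only [WeierstrassCurve.c₆, WeierstrassCurve.b₂, WeierstrassCurve.b₄, WeierstrassCurve.b₆]
  ring

theorem disc_Eq (q : ℤ × ℤ) : (Eq q).Δ = 16 * (D q.1 q.2 : ℤ) := by
  unfold Eq D
  simp only [WeierstrassCurve.Δ, WeierstrassCurve.b₂, WeierstrassCurve.b₄, WeierstrassCurve.b₆,
    WeierstrassCurve.b₈]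
  push_cast
  ring

theorem minDisc_ge {q : ℤ × ℤ} (hmin : IsMin q.1 q.2) :
    (D q.1 q.2).natAbs ≤ 136048896 * minDisc (Eq q) := by
  have hne : {n : ℕ | ∃ (V : WeierstrassCurve ℤ) (C : WeierstrassCurve.VariableChange ℚ),
      C • Eq q = V.map (Int.castRingHom ℚ) ∧ n = V.Δ.natAbs}.Nonempty := ⟨_, Ez q, 1, Ez_map q, rfl⟩
  obtain ⟨V, C, hC, hn⟩ := Nat.sInf_mem hne
  have hn' : minDisc (Eq q) = V.Δ.natAbs := hn
  rw [hn']
  have hu : (C.u : ℚ) ≠ 0 := C.u.ne_zero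
  have h4 : ((V.c₄ : ℤ) : ℚ) = ((C.u : ℚ)⁻¹) ^ 4 * (48 * q.1) := by
    have h1 := congrArg WeierstrassCurve.c₄ hC
    rw [WeierstrassCurve.variableChange_c₄, WeierstrassCurve.map_c₄, c4_Eq] at h1
    rw [← Units.val_inv_eq_inv_val]
    exact h1.symm
  have h6 : ((V.c₆ : ℤ) : ℚ) = ((C.u : ℚ)⁻¹) ^ 6 * (864 * q.2) := by
    have h1 := congrArg WeierstrassCurve.c₆ hC
    rw [WeierstrassCurve.variableChange_c₆, WeierstrassCurve.map_c₆, c6_Eq] at h1
    rw [← Units.val_inv_eq_inv_val]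
    exact h1.symm
  have h7 := hmin.2 (6 / (C.u : ℚ)) (27 * V.c₄) (54 * V.c₆) (div_ne_zero (by norm_num) hu) (by
    push_cast
    rw [h4]
    field_simp
    ring) (by
    push_cast
    rw [h6]
    field_simp
    ring)
  have h8 : D (27 * V.c₄) (54 * V.c₆) = 136048896 * V.Δ := by
    have h9 := V.c_relation
    unfold D
    linear_combination (-78732) * h9
  rw [h8] at h7
  have h10 : ((D q.1 q.2).natAbs : ℤ) ≤ 136048896 * (V.Δ.natAbs : ℤ) := by
    rw [Int.natCast_natAbs, Int.natCast_natAbs]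
    refine h7.trans (le_of_eq ?_)
    rw [abs_mul]
    norm_num
  exact_mod_cast h10

end Pool.Agent.Y679.Fh
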